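import Pool.Agent.Helper26.WR.Stmts

/-! # Module TAME: tame base change -/

set_option autoImplicit false

namespace Pool.Agent.Helper26.WR

open Pool.Agent.Helper21.DN

universe u

theorem tame_nsmul_top (n : ℕ) (hn : 1 ≤ n) : n • (⊤ : WithTop ℤ) = ⊤ := by
  obtain ⟨a, rfl⟩ : ∃ a, n = a + 1 := ⟨n - 1, by omega⟩
  rw [succ_nsmul, add_top]

theorem tame_nsmul_coe (n : ℕ) (a : ℤ) : n • (a : WithTop ℤ) = (((n : ℤ) * a : ℤ) : WithTop ℤ) := by
  rw [← WithTop.coe_nsmul, nsmul_eq_mul]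

theorem tame_cancel (n : ℕ) (hn : 1 ≤ n) (a b : WithTop ℤ) (h : n • a = n • b) : a = b := by
  have hn' : (n : ℤ) ≠ 0 := by exact_mod_cast (by omega : n ≠ 0)
  induction a with
  | top =>
    induction b with
    | top => rfl
    | coe b =>
      rw [tame_nsmul_top n hn, tame_nsmul_coe] at h
      exact absurd h.symm (WithTop.coe_ne_top)
  | coe a =>
    induction b with
    | top =>
      rw [tame_nsmul_top n hn, tame_nsmul_coe] at h
      exact absurd h (WithTop.coe_ne_top)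
    | coe b =>
      rw [tame_nsmul_coe, tame_nsmul_coe] at h
      have h2 : (n : ℤ) * a = (n : ℤ) * b := WithTop.coe_injective h
      rw [mul_left_cancel₀ hn' h2]

theorem st_TAME (hCMP : ST_CMP.{u}) (hUNQ : ST_UNQ.{u}) (hVAL : ST_VAL.{u}) (hTOW : ST_TOW.{u}) :
    ST_TAME.{u} := by
  intro p hp k _ _ _ F _ _ _ _ ι m hm hpm hι M0 _ _ _ _ hP
  obtain ⟨N, iN, iFN, hfd, hgal, j, r, hj, hr, hinj⟩ :=
    @hCMP (LaurentSeries k) M0 F _ _ _ _ ι.toAlgebra _ _
  have hj' : ∀ x, j (algebraMap (LaurentSeries k) M0 x) = algebraMap F N (ι x) := fun x => hj x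
  let iLN : Algebra (LaurentSeries k) N :=
    ((algebraMap F N).comp (algebraMap (LaurentSeries k) F)).toAlgebra
  have hst : IsScalarTower (LaurentSeries k) F N := IsScalarTower.of_algebraMap_eq (fun _ => rfl)
  have hfdN : FiniteDimensional (LaurentSeries k) N :=
    FiniteDimensional.trans (LaurentSeries k) F N
  have hsepN : Algebra.IsSeparable (LaurentSeries k) N :=
    Algebra.IsSeparable.trans (LaurentSeries k) F N
  obtain ⟨vN, hvN, _⟩ := hVAL k N
  obtain ⟨vM, hvM, tvM⟩ := hVAL k M0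
  obtain ⟨π, hπ⟩ := tvM.unif
  rw [hvM] at hπ
  obtain ⟨w, hw⟩ : ∃ w : AddValuation M0 (WithTop ℤ), ∀ x, w x = val k N (j x) :=
    ⟨AddValuation.comap j vN, fun x => by rw [← hvN]; rfl⟩
  obtain ⟨c, hc⟩ : ∃ c : ℕ, c = Module.finrank F N := ⟨_, rfl⟩
  have hc1 : 1 ≤ c := by
    rw [hc]
    exact Module.finrank_pos
  have hwx : ∀ x : LaurentSeries k, w (algebraMap (LaurentSeries k) M0 x) = (c * m) • x.orderTop := by
    intro x
    rw [hw, hj', hTOW k F N (ι x), hι, ← hc, smul_smul]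
  have hcm : 1 ≤ c * m := Nat.mul_pos hc1 hm
  have hu := hUNQ k M0 w (c * m) hcm hwx
  obtain ⟨n, hn⟩ : ∃ n : ℕ, n = Module.finrank (LaurentSeries k) M0 := ⟨_, rfl⟩
  rw [← hn] at hu
  have hn1 : 1 ≤ n := by
    rw [hn]
    exact Module.finrank_pos
  have hcardM : Nat.card (M0 ≃ₐ[LaurentSeries k] M0) = n := by
    rw [hn]
    exact IsGalois.card_aut_eq_finrank _ _
  have hcardN : Nat.card (N ≃ₐ[F] N) = c := by
    rw [hc]
    exact IsGalois.card_aut_eq_finrank _ _
  have hdvd : n ∣ c * m := by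
    have h1 := hu π
    rw [hπ] at h1
    have h1' : ((1 : WithTop ℤ)) = ((1 : ℤ) : WithTop ℤ) := rfl
    rw [h1', tame_nsmul_coe, mul_one] at h1
    cases hwp : w π with
    | top =>
      rw [hwp, tame_nsmul_top n hn1] at h1
      exact absurd h1.symm WithTop.coe_ne_top
    | coe a =>
      rw [hwp, tame_nsmul_coe] at h1
      have h2 : (n : ℤ) * a = ((c * m : ℕ) : ℤ) := WithTop.coe_injective h1
      have h3 : (n : ℤ) ∣ ((c * m : ℕ) : ℤ) := ⟨a, h2.symm⟩
      exact Int.natCast_dvd_natCast.mp h3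
  have hcop : Nat.Coprime n m := by
    obtain ⟨e, he⟩ := IsPGroup.iff_card.mp hP
    rw [hcardM] at he
    rw [he]
    exact Nat.Coprime.pow_left e ((Nat.Prime.coprime_iff_not_dvd hp.out).mpr hpm)
  have hnc : n ∣ c := hcop.dvd_of_dvd_mul_right hdvd
  have hle : c ≤ n := by
    rw [← hcardM, ← hcardN]
    exact Nat.card_le_card_of_injective r hinj
  have hcn : c = n := le_antisymm hle (Nat.le_of_dvd hc1 hnc)
  have hbij : Function.Bijective r := by
    refine (Nat.bijective_iff_injective_and_card r).mpr ⟨hinj, ?_⟩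
    rw [hcardM, hcardN, hcn]
  refine ⟨N, iN, iLN, iFN, hst, hfdN, hsepN, hfd, hgal, j, MulEquiv.ofBijective r hbij, hj', ?_, ?_⟩
  · intro σ x
    exact hr σ x
  · intro x
    rw [← hw]
    apply tame_cancel n hn1
    rw [hu x, hcn, mul_smul]

end Pool.Agent.Helper26.WR
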